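import Mathlib

set_option autoImplicit false

/-!
# Long chains from many members that overlap little
-/

namespace Pool.Agent.K35c.BL

open Finset

/-- the number of members needed -/
def sz : ℕ → ℕ
  | 0 => 0
  | t + 1 => 8 * sz t + 1

theorem sz_eq (t : ℕ) : 7 * sz t + 1 = 8 ^ t := by
  induction t with
  | zero => rfl
  | succ t ih =>
    simp only [sz]
    rw [pow_succ]
    omega

theorem sz_pos {t : ℕ} (h : 1 ≤ t) : 1 ≤ sz t := by
  obtain ⟨s, rfl⟩ := Nat.exists_eq_add_of_le' h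
  simp only [sz]
  omega

/-- a vertex of large weight -/
theorem exists_large {ι : Type*} [DecidableEq ι] (R : ι → ι → ℝ) {M : ℝ} (C : Finset ι)
    (hC : C.Nonempty)
    (H : ∀ a ∈ C, ∀ b ∈ C, a ≠ b → M / 2 ≤ R a b + R b a) :
    ∃ a ∈ C, ((C.card : ℝ) - 1) * M / 4 ≤ ∑ b ∈ C.erase a, R a b := by
  by_contra hcon
  push Not at hcon
  have h1 : ∑ a ∈ C, ∑ b ∈ C.erase a, R a b < C.card * (((C.card : ℝ) - 1) * M / 4) := by
    rw [← nsmul_eq_mul, ← sum_const]
    exact sum_lt_sum_of_nonempty hC hcon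
  have h2 : ∑ a ∈ C, ∑ b ∈ C.erase a, R b a = ∑ a ∈ C, ∑ b ∈ C.erase a, R a b := by
    apply sum_comm'
    intro x y
    simp only [mem_erase]
    constructor
    · rintro ⟨h1, h2, h3⟩
      exact ⟨⟨Ne.symm h2, h1⟩, h3⟩
    · rintro ⟨⟨h1, h2⟩, h3⟩
      exact ⟨h2, Ne.symm h1, h3⟩
  have h3 : (C.card : ℝ) * (((C.card : ℝ) - 1) * (M / 2)) ≤
      ∑ a ∈ C, ∑ b ∈ C.erase a, (R a b + R b a) := by
    rw [← nsmul_eq_mul, ← sum_const]
    apply sum_le_sum
    intro a ha
    have h4 : ((C.erase a).card : ℝ) = (C.card : ℝ) - 1 := by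
      rw [card_erase_of_mem ha, Nat.cast_sub (card_pos.2 hC), Nat.cast_one]
    rw [← h4, ← nsmul_eq_mul, ← sum_const]
    apply sum_le_sum
    intro b hb
    rw [mem_erase] at hb
    exact H a ha b hb.2 (Ne.symm hb.1)
  simp only [sum_add_distrib] at h3
  rw [h2] at h3
  nlinarith

/-- an element outside of the bad set, missing in many members -/
theorem exists_elt {ι α : Type*} [DecidableEq ι] [DecidableEq α] (X : ι → Finset α)
    (U Xa bad : Finset α) (w : α → ℝ) (hw : ∀ i, 0 ≤ w i) {M : ℝ} (hM : 0 < M)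
    (H1 : ∑ i ∈ U \ Xa, w i ≤ M) (Hb : ∑ i ∈ bad, w i ≤ M / 16) (D : Finset ι) (hD : D.Nonempty)
    (H : (D.card : ℝ) * M / 4 ≤ ∑ b ∈ D, ∑ i ∈ U \ (Xa ∪ X b), w i) :
    ∃ i ∈ U, i ∉ Xa ∧ i ∉ bad ∧ (D.card : ℝ) / 8 ≤ (D.filter fun b => i ∉ X b).card := by
  by_contra hcon
  push Not at hcon
  have hN : (0 : ℝ) < D.card := by exact_mod_cast card_pos.2 hD
  have h1 : ∑ b ∈ D, ∑ i ∈ U \ (Xa ∪ X b), w i =
      ∑ i ∈ U \ Xa, w i * (D.filter fun b => i ∉ X b).card := by
    have : ∀ b ∈ D, ∑ i ∈ U \ (Xa ∪ X b), w i = ∑ i ∈ U \ Xa, if i ∉ X b then w i else 0 := by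
      intro b _
      rw [← sum_filter]
      apply sum_congr _ (fun _ _ => rfl)
      ext i
      simp only [mem_sdiff, mem_union, mem_filter]
      tauto
    rw [sum_congr rfl this, sum_comm]
    apply sum_congr rfl
    intro i _
    rw [← sum_filter, sum_const, nsmul_eq_mul, mul_comm]
  have h2 : ∑ i ∈ U \ Xa, w i * (D.filter fun b => i ∉ X b).card ≤
      ∑ i ∈ U \ Xa, (w i * (D.card / 8) + if i ∈ bad then w i * D.card else 0) := by
    apply sum_le_sum
    intro i hi
    rw [mem_sdiff] at hi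
    have h0 := hw i
    by_cases hb : i ∈ bad
    · rw [if_pos hb]
      have h3 : ((D.filter fun b => i ∉ X b).card : ℝ) ≤ D.card := by
        exact_mod_cast card_le_card (filter_subset _ _)
      nlinarith
    · rw [if_neg hb, add_zero]
      exact mul_le_mul_of_nonneg_left (hcon i hi.1 hi.2 hb).le h0
  have h3 : ∑ i ∈ U \ Xa, (if i ∈ bad then w i * D.card else 0) ≤ M / 16 * D.card := by
    calc ∑ i ∈ U \ Xa, (if i ∈ bad then w i * D.card else 0)
        = ∑ i ∈ (U \ Xa).filter (fun i => i ∈ bad), w i * D.card := by rw [sum_filter]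
      _ ≤ ∑ i ∈ bad, w i * D.card := by
          apply sum_le_sum_of_subset_of_nonneg
          · intro i hi
            exact (mem_filter.1 hi).2
          · intro i _ _
            exact mul_nonneg (hw i) hN.le
      _ = (∑ i ∈ bad, w i) * D.card := by rw [sum_mul]
      _ ≤ M / 16 * D.card := mul_le_mul_of_nonneg_right Hb hN.le
  have h4 : ∑ i ∈ U \ Xa, w i * ((D.card : ℝ) / 8) ≤ M * (D.card / 8) := by
    rw [← sum_mul]
    exact mul_le_mul_of_nonneg_right H1 (by positivity)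
  rw [sum_add_distrib] at h2
  rw [h1] at H
  have h5 : (0 : ℝ) < D.card * M := mul_pos hN hM
  nlinarith

/-- long chains of unions -/
theorem sel {ι α : Type*} [DecidableEq ι] [DecidableEq α] {A : Finset (Finset α)}
    (hU : ∀ X ∈ A, ∀ Y ∈ A, X ∪ Y ∈ A) (X : ι → Finset α) (hX : ∀ a, X a ∈ A) (U : Finset α)
    (w : ι → α → ℝ) (hw : ∀ a i, 0 ≤ w a i) {M : ℝ} (hM : 0 < M)
    (H1 : ∀ a, ∑ i ∈ U \ X a, w a i ≤ M)
    (H2 : ∀ a b, a ≠ b → M / 2 ≤ ∑ i ∈ U \ (X a ∪ X b), w a i + ∑ i ∈ U \ (X b ∪ X a), w b i)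
    (bad : ι → Finset α) (Hb : ∀ a, ∑ i ∈ bad a, w a i ≤ M / 16) (k : ℕ)
    (Hbad : ∀ a, ∀ J : Finset ι, J.Nonempty → a ∉ J → J.card ≤ k → X a ⊆ J.sup X →
      U \ J.sup X ⊆ bad a) :
    ∀ t, t ≤ k → ∀ C : Finset ι, sz (t + 1) ≤ C.card →
      ∃ J ⊆ C, J.Nonempty ∧ J.card ≤ t + 1 ∧ ∃ K ⊆ A, IsChain (· ⊆ ·) (K : Set (Finset α)) ∧
        K.card = t + 1 ∧ J.sup X ∈ K ∧ ∀ Z ∈ K, Z ⊆ J.sup X := by
  intro t
  induction t with
  | zero =>
    intro _ C hC
    have h1 : 0 < C.card := by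
      have : sz (0 + 1) = 1 := rfl
      omega
    obtain ⟨a, ha⟩ := card_pos.1 h1
    refine ⟨{a}, singleton_subset_iff.2 ha, singleton_nonempty a, by simp, {X a},
      singleton_subset_iff.2 (hX a), by simp, by simp, by simp, ?_⟩
    intro Z hZ
    rw [mem_singleton.1 hZ, sup_singleton]
  | succ t ih =>
    intro ht C hC
    have h1 : 8 * sz (t + 1) + 1 ≤ C.card := hC
    have h1' : 1 ≤ sz (t + 1) := sz_pos (Nat.le_add_left _ _)
    have hne : C.Nonempty := card_pos.1 (by omega)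
    obtain ⟨a, ha, hR⟩ := exists_large (fun a b => ∑ i ∈ U \ (X a ∪ X b), w a i) C hne
      (fun a _ b _ hab => H2 a b hab)
    have hcard : (C.erase a).card = C.card - 1 := card_erase_of_mem ha
    have hcard' : ((C.erase a).card : ℝ) = (C.card : ℝ) - 1 := by
      rw [hcard, Nat.cast_sub (by omega), Nat.cast_one]
    have hD : (C.erase a).Nonempty := card_pos.1 (by omega)
    obtain ⟨i, hiU, hia, hib, hi⟩ := exists_elt X U (X a) (bad a) (w a) (hw a) hM (H1 a) (Hb a)
      (C.erase a) hD (by rw [hcard']; exact hR)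
    have hC' : sz (t + 1) ≤ ((C.erase a).filter fun b => i ∉ X b).card := by
      have h2 : ((8 * sz (t + 1) : ℕ) : ℝ) ≤ (C.erase a).card := by
        exact_mod_cast (by omega : 8 * sz (t + 1) ≤ (C.erase a).card)
      push_cast at h2
      have h3 : (sz (t + 1) : ℝ) ≤ (((C.erase a).filter fun b => i ∉ X b).card : ℝ) := by
        linarith
      exact_mod_cast h3
    obtain ⟨J, hJ, hJne, hJc, K, hKA, hK, hKc, hT, hTop⟩ := ih (by omega) _ hC'
    have haJ : a ∉ J := by
      intro h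
      have := (mem_filter.1 (hJ h)).1
      exact (mem_erase.1 this).1 rfl
    have hiT : i ∉ J.sup X := by
      intro h
      rw [mem_sup] at h
      obtain ⟨b, hb, hib⟩ := h
      exact (mem_filter.1 (hJ hb)).2 hib
    have hnot : ¬ X a ⊆ J.sup X := by
      intro h
      exact hib (Hbad a J hJne haJ (by omega) h (mem_sdiff.2 ⟨hiU, hiT⟩))
    have hnew : (insert a J).sup X ∉ K := by
      intro h
      apply hnot
      have h2 := hTop _ h
      rw [sup_insert] at h2
      exact (le_sup_left : X a ≤ X a ⊔ J.sup X).trans h2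
    refine ⟨insert a J, ?_, insert_nonempty _ _, ?_, insert ((insert a J).sup X) K, ?_, ?_, ?_,
      mem_insert_self _ _, ?_⟩
    · intro b hb
      rcases mem_insert.1 hb with rfl | hb
      · exact ha
      · exact (mem_erase.1 (mem_filter.1 (hJ hb)).1).2
    · rw [card_insert_of_notMem haJ]
      omega
    · refine insert_subset ?_ hKA
      rw [sup_insert]
      exact hU _ (hX a) _ (hKA hT)
    · rw [coe_insert]
      refine hK.insert ?_
      intro b hb _
      right
      refine (hTop b hb).trans ?_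
      rw [sup_insert]
      exact (le_sup_right : J.sup X ≤ X a ⊔ J.sup X)
    · rw [card_insert_of_notMem hnew, hKc]
    · intro Z hZ
      rcases mem_insert.1 hZ with rfl | hZ
      · exact Subset.rfl
      · refine (hTop Z hZ).trans ?_
        rw [sup_insert]
        exact (le_sup_right : J.sup X ≤ X a ⊔ J.sup X)

end Pool.Agent.K35c.BL
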