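import Pool.Agent.K35c.BL.Info
import Pool.Agent.K35c.BL.Sel

set_option autoImplicit false

/-!
# Many pairs of members with little information
-/

namespace Pool.Agent.K35c.BL

open Finset

/-- resampling of a coordinate -/
theorem resample {ι β : Type*} [Fintype ι] [DecidableEq ι] [DecidableEq β] (A : Finset β) (a : ι)
    (F : (ι → β) → ℝ) :
    ∑ x ∈ Fintype.piFinset (fun _ : ι => A), ∑ Y ∈ A, F (Function.update x a Y) =
      A.card * ∑ x ∈ Fintype.piFinset (fun _ : ι => A), F x := by
  have h1 : (A.card : ℝ) * ∑ x ∈ Fintype.piFinset (fun _ : ι => A), F x =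
      ∑ x ∈ Fintype.piFinset (fun _ : ι => A), ∑ _Y ∈ A, F x := by
    rw [mul_sum]
    apply sum_congr rfl
    intro x _
    rw [sum_const, nsmul_eq_mul]
  rw [h1, ← sum_product', ← sum_product']
  refine sum_nbij' (fun p => (Function.update p.1 a p.2, p.1 a))
    (fun p => (Function.update p.1 a p.2, p.1 a)) ?_ ?_ ?_ ?_ ?_
  · rintro ⟨x, Y⟩ h
    rw [mem_product, Fintype.mem_piFinset] at h ⊢
    refine ⟨fun b => ?_, h.1 a⟩
    by_cases hb : b = a
    · subst hb
      simpa using h.2
    · simpa [Function.update_of_ne hb] using h.1 b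
  · rintro ⟨x, Y⟩ h
    rw [mem_product, Fintype.mem_piFinset] at h ⊢
    refine ⟨fun b => ?_, h.1 a⟩
    by_cases hb : b = a
    · subst hb
      simpa using h.2
    · simpa [Function.update_of_ne hb] using h.1 b
  · rintro ⟨x, Y⟩ _
    simp
  · rintro ⟨x, Y⟩ _
    simp
  · rintro ⟨x, Y⟩ _
    simp

/-- the number of the tuples with a property of two entries -/
theorem count_pair {ι β : Type*} [Fintype ι] [DecidableEq ι] [DecidableEq β] (A : Finset β)
    (a b : ι) (hab : a ≠ b) (G : β → β → ℝ) :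
    (A.card : ℝ) * (A.card * ∑ x ∈ Fintype.piFinset (fun _ : ι => A), G (x a) (x b)) =
      (Fintype.piFinset (fun _ : ι => A)).card * ∑ Y ∈ A, ∑ Z ∈ A, G Y Z := by
  rw [← resample A a (fun x => G (x a) (x b))]
  have h1 : ∀ x ∈ Fintype.piFinset (fun _ : ι => A),
      ∑ Y ∈ A, G (Function.update x a Y a) (Function.update x a Y b) = ∑ Y ∈ A, G Y (x b) := by
    intro x _
    apply sum_congr rfl
    intro Y _
    rw [Function.update_self, Function.update_of_ne (Ne.symm hab)]
  rw [sum_congr rfl h1, ← resample A b (fun x => ∑ Y ∈ A, G Y (x b))]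
  have h2 : ∀ x ∈ Fintype.piFinset (fun _ : ι => A),
      ∑ Z ∈ A, ∑ Y ∈ A, G Y (Function.update x b Z b) = ∑ Y ∈ A, ∑ Z ∈ A, G Y Z := by
    intro x _
    rw [sum_comm]
    apply sum_congr rfl
    intro Y _
    apply sum_congr rfl
    intro Z _
    rw [Function.update_self]
  rw [sum_congr rfl h2, sum_const, nsmul_eq_mul]

variable {α : Type*} [DecidableEq α]

/-- few members inside `T` have much information outside `T` -/
theorem few_inside (A : Finset (Finset α)) (l : List α) (T : Finset α) (K : ℝ) :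
    ((A.filter fun Y => Y ⊆ T ∧ K < info l A T Y).card : ℝ) ≤ A.card * Real.exp (-K) := by
  have h1 := kraft l A T
  have h2 : ((A.filter fun Y => Y ⊆ T ∧ K < info l A T Y).card : ℝ) * Real.exp K ≤
      ∑ X ∈ A.filter (fun X => X ⊆ T), Real.exp (info l A T X) := by
    rw [← nsmul_eq_mul, ← sum_const]
    calc ∑ _X ∈ A.filter (fun Y => Y ⊆ T ∧ K < info l A T Y), Real.exp K
        ≤ ∑ X ∈ A.filter (fun Y => Y ⊆ T ∧ K < info l A T Y), Real.exp (info l A T X) := by
          apply sum_le_sum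
          intro X hX
          exact Real.exp_le_exp.2 (mem_filter.1 hX).2.2.le
      _ ≤ _ := by
          apply sum_le_sum_of_subset_of_nonneg
          · intro X hX
            rw [mem_filter] at hX ⊢
            exact ⟨hX.1, hX.2.1⟩
          · intro X _ _
            exact (Real.exp_pos _).le
  rw [Real.exp_neg, ← div_eq_mul_inv, le_div_iff₀ (Real.exp_pos K)]
  exact h2.trans h1

/-- the tuples with an entry inside of the union of other entries -/
theorem count_inside {ι κ : Type*} [Fintype ι] [DecidableEq ι] [Fintype κ] (A : Finset (Finset α))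
    (hA : A.Nonempty) (l : List α) (a : ι) (f : κ → ι) (hf : ∀ j, f j ≠ a) (K : ℝ) :
    (((Fintype.piFinset (fun _ : ι => A)).filter fun x =>
      x a ⊆ univ.sup (fun j => x (f j)) ∧ K < info l A (univ.sup (fun j => x (f j))) (x a)).card : ℝ)
      ≤ (Fintype.piFinset (fun _ : ι => A)).card * Real.exp (-K) := by
  have hm : (0 : ℝ) < A.card := by exact_mod_cast card_pos.2 hA
  have h1 := resample A a (fun x => if x a ⊆ univ.sup (fun j => x (f j)) ∧
    K < info l A (univ.sup (fun j => x (f j))) (x a) then (1 : ℝ) else 0)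
  have h2 : ∀ x ∈ Fintype.piFinset (fun _ : ι => A),
      (∑ Y ∈ A, if Function.update x a Y a ⊆ univ.sup (fun j => Function.update x a Y (f j)) ∧
        K < info l A (univ.sup (fun j => Function.update x a Y (f j))) (Function.update x a Y a)
        then (1 : ℝ) else 0) ≤ A.card * Real.exp (-K) := by
    intro x _
    refine le_trans (le_of_eq ?_) (few_inside A l (univ.sup (fun j => x (f j))) K)
    rw [card_filter]
    push_cast
    apply sum_congr rfl
    intro Y _
    have h3 : (fun j => Function.update x a Y (f j)) = fun j => x (f j) := by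
      funext j
      exact Function.update_of_ne (hf j) _ _
    rw [h3, Function.update_self]
  have h3 := sum_le_sum h2
  rw [h1, sum_const, nsmul_eq_mul] at h3
  rw [card_filter]
  push_cast
  have h4 : (A.card : ℝ) * (∑ x ∈ Fintype.piFinset (fun _ : ι => A),
      (if x a ⊆ univ.sup (fun j => x (f j)) ∧
        K < info l A (univ.sup (fun j => x (f j))) (x a) then (1 : ℝ) else 0)) ≤
      A.card * ((Fintype.piFinset (fun _ : ι => A)).card * Real.exp (-K)) := by
    linarith
  exact le_of_mul_le_mul_left h4 hm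

theorem sum_biUnion_le' {ι β : Type*} [DecidableEq ι] [DecidableEq β] (S : Finset ι)
    (t : ι → Finset β) (g : β → ℝ) (hg : ∀ b, 0 ≤ g b) :
    ∑ b ∈ S.biUnion t, g b ≤ ∑ s ∈ S, ∑ b ∈ t s, g b := by
  induction S using Finset.induction_on with
  | empty => simp
  | insert s S hs ih =>
    rw [biUnion_insert, sum_insert hs]
    have h1 := sum_union_inter (s₁ := t s) (s₂ := S.biUnion t) (f := g)
    have h2 : 0 ≤ ∑ b ∈ t s ∩ S.biUnion t, g b := sum_nonneg (fun b _ => hg b)
    linarith

/-- a nonempty set with at most `L` members is the range of a function on `Fin L` -/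
theorem exists_range {ι : Type*} [DecidableEq ι] {L : ℕ} (J : Finset ι) (hJ : J.Nonempty)
    (hc : J.card ≤ L) : ∃ f : Fin L → ι, univ.image f = J := by
  have h1 : Fintype.card J ≤ Fintype.card (Fin L) := by simpa using hc
  obtain ⟨e⟩ := Function.Embedding.nonempty_of_card_le h1
  have : Nonempty J := by
    obtain ⟨j, hj⟩ := hJ
    exact ⟨⟨j, hj⟩⟩
  refine ⟨fun j => (Function.invFun e j : J).1, ?_⟩
  ext i
  rw [mem_image]
  constructor
  · rintro ⟨j, _, rfl⟩
    exact (Function.invFun e j).2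
  · intro hi
    obtain ⟨j, hj⟩ := Function.invFun_surjective e.injective ⟨i, hi⟩
    exact ⟨j, mem_univ _, by rw [hj]⟩

/-- among many members, two have little information or one is covered by others -/
theorem tuple_event {A : Finset (Finset α)} (hU : ∀ X ∈ A, ∀ Y ∈ A, X ∪ Y ∈ A) {L : ℕ}
    (hchain : ∀ K ⊆ A, IsChain (· ⊆ ·) (K : Set (Finset α)) → K.card ≤ L)
    (l : List α) (hl : l.Nodup) {n : ℕ} (hn : sz (L + 1) ≤ n) {M : ℝ} (hM : 0 < M)
    (hMA : Real.log A.card = M)
    (x : Fin n → Finset α) (hx : ∀ a, x a ∈ A) :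
    (∃ a b, a ≠ b ∧ info l A (x a ∪ x b) (x a) + info l A (x b ∪ x a) (x b) < M / 2) ∨
    (∃ a, ∃ f : Fin L → Fin n, (∀ j, f j ≠ a) ∧ x a ⊆ univ.sup (fun j => x (f j)) ∧
      M / (16 * n ^ L) < info l A (univ.sup (fun j => x (f j))) (x a)) := by
  by_contra hcon
  push Not at hcon
  obtain ⟨hc1, hc2⟩ := hcon
  have hnL : (0 : ℝ) < (n : ℝ) ^ L := by
    have : 0 < n := lt_of_lt_of_le (sz_pos (Nat.le_add_left 1 L)) hn
    positivity
  let U := l.toFinset
  let bad : Fin n → Finset α := fun a =>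
    (univ.filter fun f : Fin L → Fin n => (∀ j, f j ≠ a) ∧
      x a ⊆ univ.sup (fun j => x (f j))).biUnion (fun f => U \ univ.sup (fun j => x (f j)))
  obtain ⟨J, _, _, _, K, hK, hKc, hKcard, _⟩ := sel hU x hx U (fun a i => wt l A (x a) i)
    (fun a i => wt_nonneg l A (x a) i (hx a)) hM
    (by
      intro a
      rw [← info_eq_sum l A (x a) (x a) hl]
      refine (info_anti l A ∅ (x a) (x a) (hx a) (empty_subset _)).trans ?_
      rw [info_total, hMA]
      have : (0 : ℝ) ≤ Real.log (A.filter fun Z => ∀ i ∈ l, (i ∈ Z ↔ i ∈ x a)).card :=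
        Real.log_natCast_nonneg _
      linarith)
    (by
      intro a b hab
      rw [← info_eq_sum l A _ (x a) hl, ← info_eq_sum l A _ (x b) hl]
      exact hc1 a b hab)
    bad
    (by
      intro a
      refine (sum_biUnion_le' _ _ _ (fun i => wt_nonneg l A (x a) i (hx a))).trans ?_
      calc ∑ f ∈ univ.filter (fun f : Fin L → Fin n => (∀ j, f j ≠ a) ∧
              x a ⊆ univ.sup (fun j => x (f j))),
              ∑ i ∈ U \ univ.sup (fun j => x (f j)), wt l A (x a) i
          ≤ ∑ f ∈ univ.filter (fun f : Fin L → Fin n => (∀ j, f j ≠ a) ∧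
              x a ⊆ univ.sup (fun j => x (f j))), M / (16 * n ^ L) := by
            apply sum_le_sum
            intro f hf
            rw [mem_filter] at hf
            rw [← info_eq_sum l A _ (x a) hl]
            exact hc2 a f hf.2.1 hf.2.2
        _ ≤ ∑ _f : Fin L → Fin n, M / (16 * n ^ L) := by
            apply sum_le_sum_of_subset_of_nonneg (filter_subset _ _)
            intro _ _ _
            positivity
        _ = M / 16 := by
            rw [sum_const, nsmul_eq_mul, card_univ]
            simp only [Fintype.card_fun, Fintype.card_fin]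
            push_cast
            field_simp)
    L
    (by
      intro a J hJ haJ hJc hsub
      obtain ⟨f, rfl⟩ := exists_range J hJ hJc
      have h1 : (univ.image f).sup x = univ.sup (fun j => x (f j)) := by
        rw [sup_image]
        rfl
      rw [h1] at hsub ⊢
      intro i hi
      refine mem_biUnion.2 ⟨f, ?_, hi⟩
      rw [mem_filter]
      refine ⟨mem_univ _, ?_, hsub⟩
      intro j hj
      exact haJ (hj ▸ mem_image_of_mem f (mem_univ j)))
    L le_rfl univ (by rw [card_univ, Fintype.card_fin]; exact hn)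
  have := hchain K hK hKc
  omega

/-- many pairs of members have little information -/
theorem many_pairs {A : Finset (Finset α)} (hA : A.Nonempty)
    (hU : ∀ X ∈ A, ∀ Y ∈ A, X ∪ Y ∈ A) {L : ℕ}
    (hchain : ∀ K ⊆ A, IsChain (· ⊆ ·) (K : Set (Finset α)) → K.card ≤ L)
    (l : List α) (hl : l.Nodup) {n : ℕ} (hn : sz (L + 1) ≤ n) {M : ℝ}
    (hMA : Real.log A.card = M) (hM : 32 * (n : ℝ) ^ (2 * L + 1) ≤ M) :
    (A.card : ℝ) ^ 2 ≤ 2 * (n : ℝ) ^ 2 * ((A ×ˢ A).filter fun p =>
      info l A (p.1 ∪ p.2) p.1 + info l A (p.2 ∪ p.1) p.2 < M / 2).card := by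
  have hn0 : 0 < n := lt_of_lt_of_le (sz_pos (Nat.le_add_left 1 L)) hn
  have hn0' : (0 : ℝ) < n := by exact_mod_cast hn0
  have hM0 : 0 < M := lt_of_lt_of_le (by positivity) hM
  have hm : (0 : ℝ) < A.card := by exact_mod_cast card_pos.2 hA
  set Ω := Fintype.piFinset (fun _ : Fin n => A) with hΩ
  have hΩ0 : (0 : ℝ) < Ω.card := by
    have : Ω.Nonempty := by
      obtain ⟨X, hX⟩ := hA
      exact ⟨fun _ => X, Fintype.mem_piFinset.2 (fun _ => hX)⟩
    exact_mod_cast card_pos.2 this
  set Q : ℝ := (((A ×ˢ A).filter fun p =>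
      info l A (p.1 ∪ p.2) p.1 + info l A (p.2 ∪ p.1) p.2 < M / 2).card : ℝ) with hQ
  set K : ℝ := M / (16 * n ^ L) with hK
  -- the first events
  have h1 : ∀ p ∈ (univ : Finset (Fin n × Fin n)).filter (fun p => p.1 ≠ p.2),
      ∑ x ∈ Ω, (if info l A (x p.1 ∪ x p.2) (x p.1) + info l A (x p.2 ∪ x p.1) (x p.2) < M / 2
        then (1 : ℝ) else 0) ≤ Ω.card * Q / (A.card : ℝ) ^ 2 := by
    intro p hp
    rw [mem_filter] at hp
    have h2 := count_pair A p.1 p.2 hp.2 (fun Y Z =>
      if info l A (Y ∪ Z) Y + info l A (Z ∪ Y) Z < M / 2 then (1 : ℝ) else 0)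
    have h3 : ∑ Y ∈ A, ∑ Z ∈ A, (if info l A (Y ∪ Z) Y + info l A (Z ∪ Y) Z < M / 2
        then (1 : ℝ) else 0) = Q := by
      rw [← sum_product', hQ, card_filter]
      push_cast
      rfl
    rw [h3] at h2
    rw [le_div_iff₀ (by positivity), ← h2]
    apply le_of_eq
    ring
  have h2 : ∀ p ∈ (univ : Finset (Fin n × (Fin L → Fin n))).filter (fun p => ∀ j, p.2 j ≠ p.1),
      ∑ x ∈ Ω, (if x p.1 ⊆ univ.sup (fun j => x (p.2 j)) ∧
        K < info l A (univ.sup (fun j => x (p.2 j))) (x p.1) then (1 : ℝ) else 0) ≤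
        Ω.card * Real.exp (-K) := by
    intro p hp
    rw [mem_filter] at hp
    have h3 := count_inside A hA l p.1 p.2 hp.2 K
    rw [card_filter] at h3
    push_cast at h3
    exact h3
  have h3 : (Ω.card : ℝ) ≤
      ∑ x ∈ Ω, ((∑ p ∈ (univ : Finset (Fin n × Fin n)).filter (fun p => p.1 ≠ p.2),
        (if info l A (x p.1 ∪ x p.2) (x p.1) + info l A (x p.2 ∪ x p.1) (x p.2) < M / 2
        then (1 : ℝ) else 0)) +
      ∑ p ∈ (univ : Finset (Fin n × (Fin L → Fin n))).filter (fun p => ∀ j, p.2 j ≠ p.1),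
        (if x p.1 ⊆ univ.sup (fun j => x (p.2 j)) ∧
        K < info l A (univ.sup (fun j => x (p.2 j))) (x p.1) then (1 : ℝ) else 0)) := by
    rw [card_eq_sum_ones]
    push_cast
    apply sum_le_sum
    intro x hx
    have hx' := Fintype.mem_piFinset.1 hx
    have n1 : 0 ≤ ∑ p ∈ (univ : Finset (Fin n × Fin n)).filter (fun p => p.1 ≠ p.2),
        (if info l A (x p.1 ∪ x p.2) (x p.1) + info l A (x p.2 ∪ x p.1) (x p.2) < M / 2
        then (1 : ℝ) else 0) := by
      apply sum_nonneg
      intro p _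
      split_ifs <;> norm_num
    have n2 : 0 ≤ ∑ p ∈ (univ : Finset (Fin n × (Fin L → Fin n))).filter (fun p => ∀ j, p.2 j ≠ p.1),
        (if x p.1 ⊆ univ.sup (fun j => x (p.2 j)) ∧
        K < info l A (univ.sup (fun j => x (p.2 j))) (x p.1) then (1 : ℝ) else 0) := by
      apply sum_nonneg
      intro p _
      split_ifs <;> norm_num
    rcases tuple_event hU hchain l hl hn hM0 hMA x hx' with ⟨a, b, hab, h⟩ | ⟨a, f, hf, hsub, h⟩
    · have h4 := single_le_sum (f := fun p : Fin n × Fin n =>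
        (if info l A (x p.1 ∪ x p.2) (x p.1) + info l A (x p.2 ∪ x p.1) (x p.2) < M / 2
        then (1 : ℝ) else 0)) (s := (univ : Finset (Fin n × Fin n)).filter (fun p => p.1 ≠ p.2))
        (fun p _ => by split_ifs <;> norm_num) (a := (a, b)) (by simp [hab])
      simp only [if_pos h] at h4
      linarith
    · have h4 := single_le_sum (f := fun p : Fin n × (Fin L → Fin n) =>
        (if x p.1 ⊆ univ.sup (fun j => x (p.2 j)) ∧
        K < info l A (univ.sup (fun j => x (p.2 j))) (x p.1) then (1 : ℝ) else 0))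
        (s := (univ : Finset (Fin n × (Fin L → Fin n))).filter (fun p => ∀ j, p.2 j ≠ p.1))
        (fun p _ => by split_ifs <;> norm_num) (a := (a, f)) (by simp [hf])
      have h' : K < info l A (univ.sup (fun j => x (f j))) (x a) := h
      simp only [if_pos (And.intro hsub h')] at h4
      linarith
  rw [sum_add_distrib, sum_comm, sum_comm (s := Ω)] at h3
  have h4 : ∑ p ∈ (univ : Finset (Fin n × Fin n)).filter (fun p => p.1 ≠ p.2),
      ∑ x ∈ Ω, (if info l A (x p.1 ∪ x p.2) (x p.1) + info l A (x p.2 ∪ x p.1) (x p.2) < M / 2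
        then (1 : ℝ) else 0) ≤ (n : ℝ) ^ 2 * (Ω.card * Q / (A.card : ℝ) ^ 2) := by
    refine (sum_le_sum h1).trans ?_
    rw [sum_const, nsmul_eq_mul]
    apply mul_le_mul_of_nonneg_right _ (by positivity)
    have : ((univ : Finset (Fin n × Fin n)).filter (fun p => p.1 ≠ p.2)).card ≤ n ^ 2 := by
      refine (card_filter_le _ _).trans ?_
      rw [card_univ, Fintype.card_prod, Fintype.card_fin, sq]
    exact_mod_cast this
  have h5 : ∑ p ∈ (univ : Finset (Fin n × (Fin L → Fin n))).filter (fun p => ∀ j, p.2 j ≠ p.1),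
      ∑ x ∈ Ω, (if x p.1 ⊆ univ.sup (fun j => x (p.2 j)) ∧
        K < info l A (univ.sup (fun j => x (p.2 j))) (x p.1) then (1 : ℝ) else 0) ≤
      (n : ℝ) ^ (L + 1) * (Ω.card * Real.exp (-K)) := by
    refine (sum_le_sum h2).trans ?_
    rw [sum_const, nsmul_eq_mul]
    apply mul_le_mul_of_nonneg_right _ (by positivity)
    have : ((univ : Finset (Fin n × (Fin L → Fin n))).filter (fun p => ∀ j, p.2 j ≠ p.1)).card ≤
        n ^ (L + 1) := by
      refine (card_filter_le _ _).trans ?_
      rw [card_univ, Fintype.card_prod, Fintype.card_fun, Fintype.card_fin, Fintype.card_fin,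
        pow_succ, mul_comm]
    exact_mod_cast this
  have h6 : (n : ℝ) ^ (L + 1) * Real.exp (-K) ≤ 1 / 2 := by
    have h7 : 2 * (n : ℝ) ^ (L + 1) ≤ K := by
      rw [hK, le_div_iff₀ (by positivity)]
      calc 2 * (n : ℝ) ^ (L + 1) * (16 * n ^ L) = 32 * (n : ℝ) ^ (2 * L + 1) := by ring
        _ ≤ M := hM
    have h8 : K ≤ Real.exp K := by
      have := Real.add_one_le_exp K
      linarith
    rw [Real.exp_neg, ← div_eq_mul_inv, div_le_iff₀ (Real.exp_pos K)]
    linarith
  have h9 : (Ω.card : ℝ) ≤ (n : ℝ) ^ 2 * (Ω.card * Q / (A.card : ℝ) ^ 2) + Ω.card * (1 / 2) := by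
    have : (n : ℝ) ^ (L + 1) * (Ω.card * Real.exp (-K)) ≤ Ω.card * (1 / 2) := by
      calc (n : ℝ) ^ (L + 1) * (Ω.card * Real.exp (-K))
          = Ω.card * ((n : ℝ) ^ (L + 1) * Real.exp (-K)) := by ring
        _ ≤ Ω.card * (1 / 2) := mul_le_mul_of_nonneg_left h6 hΩ0.le
    linarith
  have h10 : (Ω.card : ℝ) * (A.card : ℝ) ^ 2 ≤ Ω.card * (2 * (n : ℝ) ^ 2 * Q) := by
    have h11 : (n : ℝ) ^ 2 * (Ω.card * Q / (A.card : ℝ) ^ 2) * (A.card : ℝ) ^ 2 =
        (n : ℝ) ^ 2 * (Ω.card * Q) := by
      field_simp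
    have h12 : (0 : ℝ) < (A.card : ℝ) ^ 2 := by positivity
    have h13 := mul_le_mul_of_nonneg_right h9 h12.le
    rw [add_mul, h11] at h13
    nlinarith
  exact le_of_mul_le_mul_left h10 hΩ0

end Pool.Agent.K35c.BL
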