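import Pool.Agent.K35c.BL.Count

set_option autoImplicit false

/-!
# An abundant element in a large family without long chains
-/

namespace Pool.Agent.K35c.BL

open Finset

variable {α : Type*} [DecidableEq α]

/-- the exponential sum of the informations of two members -/
theorem sum_exp {A : Finset (Finset α)} (hU : ∀ X ∈ A, ∀ Y ∈ A, X ∪ Y ∈ A) (l : List α) :
    ∑ p ∈ A ×ˢ A, Real.exp (info l A (p.1 ∪ p.2) p.1 + info l A (p.2 ∪ p.1) p.2) ≤
      (A.card : ℝ) ^ 3 := by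
  have hmap : ∀ p ∈ A ×ˢ A, p.1 ∪ p.2 ∈ A := by
    intro p hp
    rw [mem_product] at hp
    exact hU _ hp.1 _ hp.2
  rw [← sum_fiberwise_of_maps_to hmap]
  have h1 : ∀ Y ∈ A, ∑ p ∈ (A ×ˢ A).filter (fun p => p.1 ∪ p.2 = Y),
      Real.exp (info l A (p.1 ∪ p.2) p.1 + info l A (p.2 ∪ p.1) p.2) ≤
      (A.card : ℝ) * A.card := by
    intro Y _
    calc ∑ p ∈ (A ×ˢ A).filter (fun p => p.1 ∪ p.2 = Y),
          Real.exp (info l A (p.1 ∪ p.2) p.1 + info l A (p.2 ∪ p.1) p.2)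
        = ∑ p ∈ (A ×ˢ A).filter (fun p => p.1 ∪ p.2 = Y),
          Real.exp (info l A Y p.1) * Real.exp (info l A Y p.2) := by
          apply sum_congr rfl
          intro p hp
          rw [mem_filter] at hp
          rw [union_comm p.2 p.1, hp.2, Real.exp_add]
      _ ≤ ∑ p ∈ (A.filter fun X => X ⊆ Y) ×ˢ (A.filter fun X => X ⊆ Y),
          Real.exp (info l A Y p.1) * Real.exp (info l A Y p.2) := by
          apply sum_le_sum_of_subset_of_nonneg
          · intro p hp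
            rw [mem_filter, mem_product] at hp
            rw [mem_product, mem_filter, mem_filter]
            refine ⟨⟨hp.1.1, ?_⟩, hp.1.2, ?_⟩
            · rw [← hp.2]
              exact subset_union_left
            · rw [← hp.2]
              exact subset_union_right
          · intro p _ _
            positivity
      _ = (∑ X ∈ A.filter (fun X => X ⊆ Y), Real.exp (info l A Y X)) *
          ∑ X ∈ A.filter (fun X => X ⊆ Y), Real.exp (info l A Y X) := by
          rw [sum_mul_sum, ← sum_product']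
      _ ≤ (A.card : ℝ) * A.card := by
          have h2 := kraft l A Y
          have h3 : 0 ≤ ∑ X ∈ A.filter (fun X => X ⊆ Y), Real.exp (info l A Y X) :=
            sum_nonneg (fun _ _ => (Real.exp_pos _).le)
          exact mul_le_mul h2 h2 h3 (by positivity)
  refine (sum_le_sum h1).trans (le_of_eq ?_)
  rw [sum_const, nsmul_eq_mul]
  ring

/-- an upper bound on the total information of two members -/
theorem sum_upper {A : Finset (Finset α)} (hA : A.Nonempty)
    (hU : ∀ X ∈ A, ∀ Y ∈ A, X ∪ Y ∈ A) (l : List α) {M : ℝ} (hMA : Real.log A.card = M) :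
    ∑ p ∈ A ×ˢ A, (info l A (p.1 ∪ p.2) p.1 + info l A (p.2 ∪ p.1) p.2) ≤
      (A.card : ℝ) ^ 2 * (M + 1) - ((A ×ˢ A).filter fun p =>
        info l A (p.1 ∪ p.2) p.1 + info l A (p.2 ∪ p.1) p.2 < M / 2).card * (M / 2) := by
  have hm : (0 : ℝ) < A.card := by exact_mod_cast card_pos.2 hA
  have h1 : ∀ p ∈ A ×ˢ A, info l A (p.1 ∪ p.2) p.1 + info l A (p.2 ∪ p.1) p.2 ≤
      M + Real.exp (info l A (p.1 ∪ p.2) p.1 + info l A (p.2 ∪ p.1) p.2) * (A.card : ℝ)⁻¹ -
      if info l A (p.1 ∪ p.2) p.1 + info l A (p.2 ∪ p.1) p.2 < M / 2 then M / 2 else 0 := by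
    intro p _
    set S := info l A (p.1 ∪ p.2) p.1 + info l A (p.2 ∪ p.1) p.2 with hS
    have h2 : Real.exp S * (A.card : ℝ)⁻¹ = Real.exp (S - M) := by
      rw [Real.exp_sub, ← hMA, Real.exp_log hm]
      rfl
    rw [h2]
    split_ifs with h
    · have := Real.exp_pos (S - M)
      linarith
    · have := Real.add_one_le_exp (S - M)
      linarith
  refine (sum_le_sum h1).trans ?_
  rw [sum_sub_distrib, sum_add_distrib, sum_const, nsmul_eq_mul, ← sum_mul, ← sum_filter,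
    sum_const, nsmul_eq_mul, card_product]
  push_cast
  have h3 := mul_le_mul_of_nonneg_right (sum_exp hU l) (inv_nonneg.2 hm.le)
  have h4 : (A.card : ℝ) ^ 3 * (A.card : ℝ)⁻¹ = (A.card : ℝ) ^ 2 := by field_simp
  rw [h4] at h3
  nlinarith

/-- a lower bound on the total information of two members -/
theorem sum_lower {A : Finset (Finset α)} (hU : ∀ X ∈ A, ∀ Y ∈ A, X ∪ Y ∈ A) {L : ℕ}
    (hchain : ∀ K ⊆ A, IsChain (· ⊆ ·) (K : Set (Finset α)) → K.card ≤ L)
    (l : List α) (hsupp : ∀ X ∈ A, ∀ i ∈ X, i ∈ l) {M κ : ℝ} (hκ0 : 0 ≤ κ)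
    (hMA : Real.log A.card = M) (hκ : ∀ i ∈ l, κ ≤ (A.filter fun Z => i ∉ Z).card) :
    2 * κ * (A.card * (M - L + 1)) ≤
      ∑ p ∈ A ×ˢ A, (info l A (p.1 ∪ p.2) p.1 + info l A (p.2 ∪ p.1) p.2) := by
  have h1 : ∑ p ∈ A ×ˢ A, (info l A (p.1 ∪ p.2) p.1 + info l A (p.2 ∪ p.1) p.2) =
      2 * ∑ X ∈ A, ∑ Z ∈ A, info l A (X ∪ Z) X := by
    rw [sum_add_distrib, sum_product, sum_product, sum_comm (s := A) (t := A)
      (f := fun x y => info l A ((x, y).2 ∪ (x, y).1) (x, y).2)]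
    ring
  have h2 : κ * ∑ X ∈ A, info l A X X ≤ ∑ X ∈ A, ∑ Z ∈ A, info l A (X ∪ Z) X := by
    rw [mul_sum]
    apply sum_le_sum
    intro X hX
    exact avg_info l A X hX hκ
  have h3 := neg_info l A
  have h4 : ∀ X ∈ A, info l A ∅ X = M := by
    intro X hX
    rw [info_total, hMA]
    have : A.filter (fun Z => ∀ i ∈ l, (i ∈ Z ↔ i ∈ X)) = {X} := by
      ext Z
      rw [mem_filter, mem_singleton]
      constructor
      · rintro ⟨hZ, h⟩
        ext i
        constructor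
        · intro hi
          exact (h i (hsupp Z hZ i hi)).1 hi
        · intro hi
          exact (h i (hsupp X hX i hi)).2 hi
      · rintro rfl
        exact ⟨hX, fun _ _ => Iff.rfl⟩
    rw [this]
    simp
  have h5 : ∑ X ∈ A, (new l A X : ℝ) ≤ A.card * ((L : ℝ) - 1) := by
    rw [← nsmul_eq_mul, ← sum_const]
    apply sum_le_sum
    intro X hX
    obtain ⟨C, hCA, hC, hcard, _⟩ := new_chain hU l A X (fun _ => False) Subset.rfl hX
      (fun _ _ _ h => h.elim)
    have h6 := hchain C hCA hC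
    rw [hcard] at h6
    have h7 : ((new l A X + 1 : ℕ) : ℝ) ≤ L := by exact_mod_cast h6
    push_cast at h7
    linarith
  rw [sum_sub_distrib, sum_congr rfl h4, sum_const, nsmul_eq_mul] at h3
  have h6 : (A.card : ℝ) * (M - L + 1) ≤ ∑ X ∈ A, info l A X X := by nlinarith
  rw [h1]
  have h7 := mul_le_mul_of_nonneg_left h6 hκ0
  linarith

/-- a large union-closed family without long chains has an element in more than half of the
members -/
theorem bounded_length (L : ℕ) (A : Finset (Finset α)) (hU : ∀ X ∈ A, ∀ Y ∈ A, X ∪ Y ∈ A)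
    (hchain : ∀ K ⊆ A, IsChain (· ⊆ ·) (K : Set (Finset α)) → K.card ≤ L)
    (hm : (64 : ℝ) ^ ((L + 1) ^ 2) ≤ Real.log A.card) :
    ∃ x, (1 / 2 + 1 / 64 ^ (L + 1)) * (A.card : ℝ) ≤ (A.filter fun X => x ∈ X).card := by
  have hM0 : 0 < Real.log A.card := lt_of_lt_of_le (by positivity) hm
  have hA : A.Nonempty := by
    rw [← card_pos]
    rcases Nat.eq_zero_or_pos A.card with h | h
    · rw [h, Nat.cast_zero, Real.log_zero] at hM0
      exact absurd hM0 (lt_irrefl _)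
    · exact h
  have hL : 1 ≤ L := by
    obtain ⟨X, hX⟩ := hA
    simpa using hchain {X} (singleton_subset_iff.2 hX) (by simp)
  set M := Real.log A.card with hMdef
  set n := sz (L + 1) with hn
  have hm0 : (0 : ℝ) < A.card := by exact_mod_cast card_pos.2 hA
  have hn8 : 7 * n + 1 = 8 ^ (L + 1) := sz_eq (L + 1)
  have hn8' : 7 * (n : ℝ) + 1 = 8 ^ (L + 1) := by exact_mod_cast hn8
  have hLn : L ≤ n := by
    have h1 : ∀ t : ℕ, 7 * t + 1 ≤ 8 ^ t := by
      intro t
      induction t with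
      | zero => norm_num
      | succ t ih => rw [pow_succ]; omega
    have := h1 (L + 1)
    omega
  have hn0 : 0 < n := by omega
  have hn0' : (0 : ℝ) < n := by exact_mod_cast hn0
  have hLn' : (L : ℝ) ≤ n := by exact_mod_cast hLn
  have hMn : 32 * (n : ℝ) ^ (2 * L + 1) ≤ M := by
    refine le_trans ?_ hm
    have h1 : (64 : ℝ) ^ ((L + 1) ^ 2) = (8 ^ (L + 1)) ^ (2 * L + 1) * 8 ^ (L + 1) := by
      rw [← pow_succ, ← pow_mul, (by norm_num : (64 : ℝ) = 8 ^ 2), ← pow_mul]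
      congr 1
      ring
    rw [h1]
    have h2 : (n : ℝ) ^ (2 * L + 1) ≤ (8 ^ (L + 1)) ^ (2 * L + 1) :=
      pow_le_pow_left₀ hn0'.le (by linarith) _
    have h3 : (32 : ℝ) ≤ 8 ^ (L + 1) := by
      calc (32 : ℝ) ≤ 8 ^ (1 + 1) := by norm_num
        _ ≤ 8 ^ (L + 1) := pow_le_pow_right₀ (by norm_num) (by omega)
    have h4 : (0 : ℝ) < (n : ℝ) ^ (2 * L + 1) := by positivity
    calc 32 * (n : ℝ) ^ (2 * L + 1) = (n : ℝ) ^ (2 * L + 1) * 32 := by ring
      _ ≤ (8 ^ (L + 1)) ^ (2 * L + 1) * 8 ^ (L + 1) :=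
        mul_le_mul h2 h3 (by norm_num) (by positivity)
  set l := (A.sup id).toList with hl
  have hnd : l.Nodup := nodup_toList _
  have hsupp : ∀ X ∈ A, ∀ i ∈ X, i ∈ l := by
    intro X hX i hi
    rw [hl, mem_toList, mem_sup]
    exact ⟨X, hX, hi⟩
  by_contra hcon
  push Not at hcon
  set c : ℝ := 1 / 64 ^ (L + 1) with hc
  have hc0 : 0 < c := by rw [hc]; positivity
  have hcn : c * (49 * (n : ℝ) ^ 2) ≤ 1 := by
    rw [hc, div_mul_eq_mul_div, one_mul, div_le_one (by positivity)]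
    have : (64 : ℝ) ^ (L + 1) = (8 ^ (L + 1)) ^ 2 := by
      rw [← pow_mul, (by norm_num : (64 : ℝ) = 8 ^ 2), ← pow_mul, mul_comm]
    rw [this, ← hn8']
    nlinarith
  have hc1 : c ≤ 1 / 64 := by
    rw [hc]
    apply one_div_le_one_div_of_le (by norm_num)
    calc (64 : ℝ) = 64 ^ 1 := by norm_num
      _ ≤ 64 ^ (L + 1) := pow_le_pow_right₀ (by norm_num) (by omega)
  have hκ : ∀ i ∈ l, (1 / 2 - c) * (A.card : ℝ) ≤ (A.filter fun Z => i ∉ Z).card := by
    intro i _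
    have h1 := hcon i
    have h2 : ((A.filter fun Z => i ∈ Z).card : ℝ) + ((A.filter fun Z => i ∉ Z).card : ℝ) =
        A.card := by
      exact_mod_cast card_filter_add_card_filter_not (s := A) (fun Z => i ∈ Z)
    linarith
  have hlow := sum_lower hU hchain l hsupp (M := M) (κ := (1 / 2 - c) * (A.card : ℝ))
    (mul_nonneg (by linarith) hm0.le) rfl hκ
  have hup := sum_upper hA hU l (M := M) rfl
  have hQ := many_pairs hA hU hchain l hnd le_rfl (M := M) rfl hMn
  set Q : ℝ := (((A ×ˢ A).filter fun p =>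
        info l A (p.1 ∪ p.2) p.1 + info l A (p.2 ∪ p.1) p.2 < M / 2).card : ℝ) with hQdef
  set m : ℝ := (A.card : ℝ) with hmdef
  have h1 := hlow.trans hup
  rw [← hn] at hQ
  -- divide by `m ^ 2`
  have hm2 : 0 < m ^ 2 := by positivity
  have h2 : m ^ 2 * ((1 - 2 * c) * (M - L + 1) * (4 * (n : ℝ) ^ 2)) ≤
      m ^ 2 * ((M + 1) * (4 * (n : ℝ) ^ 2) - M) := by
    have h3 : 2 * ((1 / 2 - c) * m) * (m * (M - L + 1)) =
        m ^ 2 * ((1 - 2 * c) * (M - L + 1)) := by ring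
    rw [h3] at h1
    have h4 : (0 : ℝ) < 4 * (n : ℝ) ^ 2 := by positivity
    have h5 := mul_le_mul_of_nonneg_right h1 h4.le
    have h6 := mul_le_mul_of_nonneg_right hQ hM0.le
    nlinarith
  have h3 := le_of_mul_le_mul_left h2 hm2
  -- the contradiction
  have hL1 : (1 : ℝ) ≤ L := by exact_mod_cast hL
  have hn3 : 32 * (n : ℝ) ^ 3 ≤ M := by
    refine le_trans ?_ hMn
    have h4 : (1 : ℝ) ≤ n := by exact_mod_cast hn0
    have h5 : (n : ℝ) ^ 3 ≤ (n : ℝ) ^ (2 * L + 1) := pow_le_pow_right₀ h4 (by omega)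
    linarith
  have h4 : 2 * c * (M - L + 1) * (4 * (n : ℝ) ^ 2) ≤ 8 / 49 * M := by
    have h5 : M - L + 1 ≤ M := by linarith
    have h6 : 2 * c * (M - L + 1) * (4 * (n : ℝ) ^ 2) ≤ 2 * c * M * (4 * (n : ℝ) ^ 2) := by
      apply mul_le_mul_of_nonneg_right _ (by positivity)
      exact mul_le_mul_of_nonneg_left h5 (by positivity)
    have h7 : 2 * c * M * (4 * (n : ℝ) ^ 2) = 8 / 49 * (c * (49 * (n : ℝ) ^ 2)) * M := by ring
    have h8 : 8 / 49 * (c * (49 * (n : ℝ) ^ 2)) * M ≤ 8 / 49 * 1 * M :=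
      mul_le_mul_of_nonneg_right (by linarith) hM0.le
    linarith
  have h5 : M ≤ L * (4 * (n : ℝ) ^ 2) + 8 / 49 * M := by nlinarith
  have h6 : (L : ℝ) * (4 * (n : ℝ) ^ 2) ≤ 4 * (n : ℝ) ^ 3 := by
    have : (L : ℝ) * (4 * (n : ℝ) ^ 2) ≤ n * (4 * (n : ℝ) ^ 2) :=
      mul_le_mul_of_nonneg_right hLn' (by positivity)
    calc (L : ℝ) * (4 * (n : ℝ) ^ 2) ≤ n * (4 * (n : ℝ) ^ 2) := this
      _ = 4 * (n : ℝ) ^ 3 := by ring
  linarith

end Pool.Agent.K35c.BL
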