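import Mathlib

set_option autoImplicit false

/-!
# The information of the missing elements in a family of sets
-/

namespace Pool.Agent.K35c.BL

open Finset

variable {α : Type*} [DecidableEq α]

/-- the members of `B` that agree with `X` at `i` -/
def cl (B : Finset (Finset α)) (i : α) (X : Finset α) : Finset (Finset α) :=
  B.filter (fun Z => (i ∈ Z ↔ i ∈ X))

theorem mem_cl {B : Finset (Finset α)} {i : α} {X Z : Finset α} :
    Z ∈ cl B i X ↔ Z ∈ B ∧ (i ∈ Z ↔ i ∈ X) := by
  unfold cl
  rw [mem_filter]

theorem self_mem_cl {B : Finset (Finset α)} (i : α) {X : Finset α} (hX : X ∈ B) : X ∈ cl B i X :=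
  mem_cl.2 ⟨hX, Iff.rfl⟩

theorem cl_of_mem {B : Finset (Finset α)} {i : α} {X : Finset α} (h : i ∈ X) :
    cl B i X = B.filter (fun Z => i ∈ Z) := by
  unfold cl
  apply filter_congr
  intro Z _
  simp [h]

theorem cl_of_notMem {B : Finset (Finset α)} {i : α} {X : Finset α} (h : i ∉ X) :
    cl B i X = B.filter (fun Z => i ∉ Z) := by
  unfold cl
  apply filter_congr
  intro Z _
  simp [h]

/-- the information of the coordinates of `l` outside of `Y` -/
noncomputable def info : List α → Finset (Finset α) → Finset α → Finset α → ℝ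
  | [], _, _, _ => 0
  | i :: l, B, Y, X =>
      (if i ∈ Y then 0 else Real.log B.card - Real.log (cl B i X).card) + info l (cl B i X) Y X

theorem delta_nonneg {B : Finset (Finset α)} {i : α} {X : Finset α} (hX : X ∈ B) :
    0 ≤ Real.log B.card - Real.log (cl B i X).card := by
  have h1 : (cl B i X).card ≤ B.card := card_le_card (filter_subset _ _)
  have h2 : 0 < (cl B i X).card := card_pos.2 ⟨X, self_mem_cl i hX⟩
  have h3 : Real.log (cl B i X).card ≤ Real.log B.card :=
    Real.log_le_log (by exact_mod_cast h2) (by exact_mod_cast h1)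
  linarith

theorem info_nonneg (l : List α) : ∀ (B : Finset (Finset α)) (Y X : Finset α), X ∈ B →
    0 ≤ info l B Y X := by
  induction l with
  | nil => intro B Y X _; exact le_rfl
  | cons i l ih =>
    intro B Y X hX
    have h1 := ih (cl B i X) Y X (self_mem_cl i hX)
    have h2 := delta_nonneg (i := i) hX
    simp only [info]
    split_ifs <;> linarith

theorem info_anti (l : List α) : ∀ (B : Finset (Finset α)) (Y Y' X : Finset α), X ∈ B → Y ⊆ Y' →
    info l B Y' X ≤ info l B Y X := by
  induction l with
  | nil => intro B Y Y' X _ _; exact le_rfl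
  | cons i l ih =>
    intro B Y Y' X hX hY
    have h1 := ih (cl B i X) Y Y' X (self_mem_cl i hX) hY
    have h2 := delta_nonneg (i := i) hX
    simp only [info]
    by_cases h3 : i ∈ Y
    · rw [if_pos h3, if_pos (hY h3)]
      linarith
    · rw [if_neg h3]
      split_ifs <;> linarith

/-- a Kraft inequality -/
theorem kraft (l : List α) : ∀ (B : Finset (Finset α)) (Y : Finset α),
    ∑ X ∈ B.filter (fun X => X ⊆ Y), Real.exp (info l B Y X) ≤ B.card := by
  induction l with
  | nil =>
    intro B Y
    simp only [info, Real.exp_zero, sum_const, nsmul_eq_mul, mul_one]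
    exact_mod_cast card_le_card (filter_subset _ _)
  | cons i l ih =>
    intro B Y
    have h0 := ih (B.filter fun Z => i ∉ Z) Y
    have h1 := ih (B.filter fun Z => i ∈ Z) Y
    have hcard : ((B.filter fun Z => i ∈ Z).card : ℝ) + ((B.filter fun Z => i ∉ Z).card : ℝ) =
        B.card := by
      exact_mod_cast card_filter_add_card_filter_not (s := B) (fun Z => i ∈ Z)
    have hsplit := sum_filter_add_sum_filter_not (B.filter fun X => X ⊆ Y) (fun X => i ∈ X)
      (fun X => Real.exp (info (i :: l) B Y X))
    rw [← hsplit]
    by_cases hi : i ∈ Y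
    · have e1 : ∑ X ∈ (B.filter fun X => X ⊆ Y).filter (fun X => i ∈ X),
          Real.exp (info (i :: l) B Y X) =
          ∑ X ∈ (B.filter fun Z => i ∈ Z).filter (fun X => X ⊆ Y),
            Real.exp (info l (B.filter fun Z => i ∈ Z) Y X) := by
        rw [filter_comm]
        apply sum_congr rfl
        intro X hX
        rw [mem_filter, mem_filter] at hX
        simp only [info, if_pos hi, cl_of_mem hX.1.2, zero_add]
      have e0 : ∑ X ∈ (B.filter fun X => X ⊆ Y).filter (fun X => i ∉ X),
          Real.exp (info (i :: l) B Y X) =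
          ∑ X ∈ (B.filter fun Z => i ∉ Z).filter (fun X => X ⊆ Y),
            Real.exp (info l (B.filter fun Z => i ∉ Z) Y X) := by
        rw [filter_comm]
        apply sum_congr rfl
        intro X hX
        rw [mem_filter, mem_filter] at hX
        simp only [info, if_pos hi, cl_of_notMem hX.1.2, zero_add]
      rw [e1, e0]
      linarith
    · have e1 : (B.filter fun X => X ⊆ Y).filter (fun X => i ∈ X) = ∅ := by
        rw [filter_eq_empty_iff]
        intro X hX h
        exact hi ((mem_filter.1 hX).2 h)
      have e0 : ∑ X ∈ (B.filter fun X => X ⊆ Y).filter (fun X => i ∉ X),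
          Real.exp (info (i :: l) B Y X) =
          Real.exp (Real.log B.card - Real.log (B.filter fun Z => i ∉ Z).card) *
          ∑ X ∈ (B.filter fun Z => i ∉ Z).filter (fun X => X ⊆ Y),
            Real.exp (info l (B.filter fun Z => i ∉ Z) Y X) := by
        rw [filter_comm, mul_sum]
        apply sum_congr rfl
        intro X hX
        rw [mem_filter, mem_filter] at hX
        simp only [info, if_neg hi, cl_of_notMem hX.1.2, Real.exp_add]
      rw [e1, sum_empty, zero_add, e0]
      rcases (B.filter fun Z => i ∉ Z).eq_empty_or_nonempty with h | h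
      · rw [h]
        simp
      · have h2 : (0 : ℝ) < (B.filter fun Z => i ∉ Z).card := by exact_mod_cast card_pos.2 h
        have h3 : (0 : ℝ) < B.card := by
          have := card_le_card (filter_subset (fun Z => i ∉ Z) B)
          have h4 := card_pos.2 h
          exact_mod_cast lt_of_lt_of_le h4 this
        rw [← Real.log_div h3.ne' h2.ne', Real.exp_log (by positivity)]
        calc (B.card : ℝ) / (B.filter fun Z => i ∉ Z).card *
            ∑ X ∈ (B.filter fun Z => i ∉ Z).filter (fun X => X ⊆ Y),
              Real.exp (info l (B.filter fun Z => i ∉ Z) Y X)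
            ≤ (B.card : ℝ) / (B.filter fun Z => i ∉ Z).card * (B.filter fun Z => i ∉ Z).card :=
              mul_le_mul_of_nonneg_left h0 (by positivity)
          _ = B.card := by field_simp

/-- the total information -/
theorem info_total (l : List α) : ∀ (B : Finset (Finset α)) (X : Finset α),
    info l B ∅ X = Real.log B.card -
      Real.log (B.filter fun Z => ∀ i ∈ l, (i ∈ Z ↔ i ∈ X)).card := by
  induction l with
  | nil => intro B X; simp [info]
  | cons i l ih =>
    intro B X
    simp only [info, notMem_empty, if_false]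
    rw [ih]
    have : (cl B i X).filter (fun Z => ∀ i ∈ l, (i ∈ Z ↔ i ∈ X)) =
        B.filter (fun Z => ∀ j ∈ i :: l, (j ∈ Z ↔ j ∈ X)) := by
      unfold cl
      rw [filter_filter]
      apply filter_congr
      intro Z _
      rw [List.forall_mem_cons]
    rw [this]
    ring

/-- the number of the elements missing in `X` that are not forced to be missing -/
def new : List α → Finset (Finset α) → Finset α → ℕ
  | [], _, _ => 0
  | i :: l, B, X => (if i ∉ X ∧ ∃ Z ∈ B, i ∈ Z then 1 else 0) + new l (cl B i X) X

/-- the information of the elements of `X` -/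
theorem neg_info (l : List α) : ∀ (B : Finset (Finset α)),
    ∑ X ∈ B, (info l B ∅ X - info l B X X) ≤ ∑ X ∈ B, (new l B X : ℝ) := by
  induction l with
  | nil => intro B; simp [info, new]
  | cons i l ih =>
    intro B
    have h0 := ih (B.filter fun Z => i ∉ Z)
    have h1 := ih (B.filter fun Z => i ∈ Z)
    have hcard : ((B.filter fun Z => i ∈ Z).card : ℝ) + ((B.filter fun Z => i ∉ Z).card : ℝ) =
        B.card := by
      exact_mod_cast card_filter_add_card_filter_not (s := B) (fun Z => i ∈ Z)
    rw [← sum_filter_add_sum_filter_not B (fun X => i ∈ X),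
      ← sum_filter_add_sum_filter_not B (fun X => i ∈ X) (fun X => (new (i :: l) B X : ℝ))]
    have e1 : ∑ X ∈ B.filter (fun X => i ∈ X), (info (i :: l) B ∅ X - info (i :: l) B X X) =
        (B.filter fun Z => i ∈ Z).card *
          (Real.log B.card - Real.log (B.filter fun Z => i ∈ Z).card) +
        ∑ X ∈ B.filter (fun X => i ∈ X), (info l (B.filter fun Z => i ∈ Z) ∅ X -
          info l (B.filter fun Z => i ∈ Z) X X) := by
      rw [← nsmul_eq_mul, ← sum_const, ← sum_add_distrib]
      apply sum_congr rfl
      intro X hX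
      rw [mem_filter] at hX
      simp only [info, notMem_empty, if_false, if_pos hX.2, cl_of_mem hX.2]
      ring
    have e0 : ∑ X ∈ B.filter (fun X => i ∉ X), (info (i :: l) B ∅ X - info (i :: l) B X X) =
        ∑ X ∈ B.filter (fun X => i ∉ X), (info l (B.filter fun Z => i ∉ Z) ∅ X -
          info l (B.filter fun Z => i ∉ Z) X X) := by
      apply sum_congr rfl
      intro X hX
      rw [mem_filter] at hX
      simp only [info, notMem_empty, if_false, if_neg hX.2, cl_of_notMem hX.2]
      ring
    have f1 : ∑ X ∈ B.filter (fun X => i ∈ X), (new (i :: l) B X : ℝ) =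
        ∑ X ∈ B.filter (fun X => i ∈ X), (new l (B.filter fun Z => i ∈ Z) X : ℝ) := by
      apply sum_congr rfl
      intro X hX
      rw [mem_filter] at hX
      simp only [new, hX.2, not_true, false_and, if_false, cl_of_mem hX.2, zero_add]
    have f0 : ∑ X ∈ B.filter (fun X => i ∉ X), (new (i :: l) B X : ℝ) =
        (B.filter fun Z => i ∉ Z).card * (if ∃ Z ∈ B, i ∈ Z then 1 else 0) +
        ∑ X ∈ B.filter (fun X => i ∉ X), (new l (B.filter fun Z => i ∉ Z) X : ℝ) := by
      rw [← nsmul_eq_mul, ← sum_const, ← sum_add_distrib]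
      apply sum_congr rfl
      intro X hX
      rw [mem_filter] at hX
      simp only [new, hX.2, not_false_eq_true, true_and, cl_of_notMem hX.2]
      push_cast
      rfl
    rw [e1, e0, f1, f0]
    have key : ((B.filter fun Z => i ∈ Z).card : ℝ) *
        (Real.log B.card - Real.log (B.filter fun Z => i ∈ Z).card) ≤
        (B.filter fun Z => i ∉ Z).card * (if ∃ Z ∈ B, i ∈ Z then 1 else 0) := by
      rcases (B.filter fun Z => i ∈ Z).eq_empty_or_nonempty with h | h
      · rw [h, card_empty, Nat.cast_zero, zero_mul]
        split_ifs <;> positivity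
      · obtain ⟨Z, hZ⟩ := h
        have hZ' := mem_filter.1 hZ
        rw [if_pos ⟨Z, hZ'.1, hZ'.2⟩, mul_one]
        have h2 : (0 : ℝ) < (B.filter fun Z => i ∈ Z).card := by
          exact_mod_cast card_pos.2 ⟨Z, hZ⟩
        have h3 : (0 : ℝ) < B.card := by
          exact_mod_cast card_pos.2 ⟨Z, hZ'.1⟩
        rw [← Real.log_div h3.ne' h2.ne']
        have h4 := Real.log_le_sub_one_of_pos (div_pos h3 h2)
        calc ((B.filter fun Z => i ∈ Z).card : ℝ) *
              Real.log (B.card / (B.filter fun Z => i ∈ Z).card)
            ≤ (B.filter fun Z => i ∈ Z).card * (B.card / (B.filter fun Z => i ∈ Z).card - 1) :=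
              mul_le_mul_of_nonneg_left h4 h2.le
          _ = B.card - (B.filter fun Z => i ∈ Z).card := by field_simp
          _ = (B.filter fun Z => i ∉ Z).card := by linarith
    linarith

/-- a chain of members -/
theorem new_chain {A : Finset (Finset α)} (hU : ∀ X ∈ A, ∀ Y ∈ A, X ∪ Y ∈ A) (l : List α) :
    ∀ (B : Finset (Finset α)) (X : Finset α) (P : α → Prop), B ⊆ A → X ∈ B →
      (∀ Z ∈ B, ∀ j, P j → (j ∈ Z ↔ j ∈ X)) →
      ∃ C : Finset (Finset α), C ⊆ A ∧ IsChain (· ⊆ ·) (C : Set (Finset α)) ∧
        C.card = new l B X + 1 ∧ ∃ T ∈ C, (∀ Z ∈ C, Z ⊆ T) ∧ ∀ j, P j → (j ∈ T ↔ j ∈ X) := by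
  induction l with
  | nil =>
    intro B X P hB hX _
    refine ⟨{X}, singleton_subset_iff.2 (hB hX), by simp, by simp [new], X,
      mem_singleton_self X, ?_, fun j _ => Iff.rfl⟩
    intro Z hZ
    rw [mem_singleton.1 hZ]
  | cons i l ih =>
    intro B X P hB hX hP
    obtain ⟨C, hCA, hC, hcard, T, hTC, hT, hTP⟩ := ih (cl B i X) X (fun j => j = i ∨ P j)
      ((filter_subset _ _).trans hB) (self_mem_cl i hX) (by
        rintro Z hZ j (rfl | hj)
        · exact (mem_cl.1 hZ).2
        · exact hP Z (mem_cl.1 hZ).1 j hj)
    by_cases hi : i ∉ X ∧ ∃ Z ∈ B, i ∈ Z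
    · obtain ⟨hiX, Z, hZ, hiZ⟩ := hi
      have hiT : i ∉ T := fun h => hiX ((hTP i (Or.inl rfl)).1 h)
      have hnot : Z ∪ T ∉ C := fun h => hiT (hT _ h (mem_union_left _ hiZ))
      refine ⟨insert (Z ∪ T) C, ?_, ?_, ?_, Z ∪ T, mem_insert_self _ _, ?_, ?_⟩
      · exact insert_subset (hU _ (hB hZ) _ (hCA hTC)) hCA
      · rw [coe_insert]
        refine hC.insert ?_
        intro b hb _
        right
        exact (hT b hb).trans subset_union_right
      · rw [card_insert_of_notMem hnot, hcard]
        simp only [new]
        rw [if_pos ⟨hiX, Z, hZ, hiZ⟩]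
        ring
      · intro W hW
        rcases mem_insert.1 hW with rfl | hW
        · exact Subset.rfl
        · exact (hT W hW).trans subset_union_right
      · intro j hj
        rw [mem_union, hP Z hZ j hj, hTP j (Or.inr hj), or_self]
    · refine ⟨C, hCA, hC, ?_, T, hTC, hT, fun j hj => hTP j (Or.inr hj)⟩
      rw [hcard]
      simp only [new]
      rw [if_neg hi]
      ring

/-- the average information of the elements missing in `X` and in a random member -/
theorem avg_info {A : Finset (Finset α)} {κ : ℝ} (l : List α) :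
    ∀ (B : Finset (Finset α)) (X : Finset α), X ∈ B →
      (∀ i ∈ l, κ ≤ (A.filter fun Z => i ∉ Z).card) →
      κ * info l B X X ≤ ∑ Z ∈ A, info l B (X ∪ Z) X := by
  induction l with
  | nil => intro B X _ _; simp [info]
  | cons i l ih =>
    intro B X hX hκ
    have h1 := ih (cl B i X) X (self_mem_cl i hX) (fun j hj => hκ j (List.mem_cons_of_mem _ hj))
    have h2 := delta_nonneg (i := i) hX
    simp only [info]
    rw [sum_add_distrib, mul_add]
    refine add_le_add ?_ h1
    by_cases hi : i ∈ X
    · rw [if_pos hi, mul_zero]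
      apply sum_nonneg
      intro Z _
      rw [if_pos (mem_union_left _ hi)]
    · rw [if_neg hi]
      have h3 : ∀ Z ∈ A, (if i ∈ X ∪ Z then (0 : ℝ) else
          Real.log B.card - Real.log (cl B i X).card) =
          (if i ∉ Z then Real.log B.card - Real.log (cl B i X).card else 0) := by
        intro Z _
        by_cases hZ : i ∈ Z
        · rw [if_pos (mem_union_right _ hZ), if_neg (not_not.2 hZ)]
        · rw [if_neg (by simp [hi, hZ]), if_pos hZ]
      rw [sum_congr rfl h3, ← sum_filter, sum_const, nsmul_eq_mul]
      exact mul_le_mul_of_nonneg_right (hκ i List.mem_cons_self) h2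

/-- the weight of an element -/
noncomputable def wt : List α → Finset (Finset α) → Finset α → α → ℝ
  | [], _, _, _ => 0
  | i :: l, B, X, j =>
      if j = i then Real.log B.card - Real.log (cl B i X).card else wt l (cl B i X) X j

theorem wt_nonneg (l : List α) : ∀ (B : Finset (Finset α)) (X : Finset α) (j : α), X ∈ B →
    0 ≤ wt l B X j := by
  induction l with
  | nil => intro B X j _; exact le_rfl
  | cons i l ih =>
    intro B X j hX
    simp only [wt]
    split_ifs
    · exact delta_nonneg hX
    · exact ih _ _ _ (self_mem_cl i hX)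

theorem info_eq_sum (l : List α) : ∀ (B : Finset (Finset α)) (Y X : Finset α), l.Nodup →
    info l B Y X = ∑ j ∈ l.toFinset \ Y, wt l B X j := by
  induction l with
  | nil => intro B Y X _; simp [info]
  | cons i l ih =>
    intro B Y X hl
    rw [List.nodup_cons] at hl
    have hil : i ∉ l.toFinset := by rw [List.mem_toFinset]; exact hl.1
    simp only [info]
    rw [ih _ Y X hl.2, List.toFinset_cons]
    have h1 : ∀ j ∈ l.toFinset \ Y, wt (i :: l) B X j = wt l (cl B i X) X j := by
      intro j hj
      rw [mem_sdiff] at hj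
      simp only [wt]
      rw [if_neg]
      rintro rfl
      exact hil hj.1
    by_cases hi : i ∈ Y
    · rw [if_pos hi, insert_sdiff_of_mem _ hi, zero_add, sum_congr rfl h1]
    · rw [if_neg hi, insert_sdiff_of_notMem _ hi, sum_insert (by simp [hil]), sum_congr rfl h1]
      simp [wt]

end Pool.Agent.K35c.BL
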